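import Pool.Agent.Helper96.CT.Stmts3

/-! Row NH: a tree all of whose vertices have a large branch is not contained in a hub graph. -/

set_option autoImplicit false

namespace Pool.Agent.Helper38.CT

open SimpleGraph Pool.Agent.Helper96.CT

theorem st_NH : ST_NH := by
  classical
  intro W V _ _ T F a h c hB hF ⟨f⟩
  obtain ⟨hF1, hF2⟩ := hF
  have hinj : Function.Injective f := f.injective
  have hadj : ∀ u w : W, T.Adj u w → F.Adj (f u) (f w) := fun u w huw => f.toHom.map_adj huw
  obtain ⟨x, hx⟩ : ∃ x : W, ∀ w, w ≠ x → f w ≠ h := by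
    by_cases hh : ∃ x, f x = h
    · obtain ⟨x, hx⟩ := hh
      refine ⟨x, fun w hw he => hw (hinj (he.trans hx.symm))⟩
    · obtain ⟨x⟩ := ‹Nonempty W›
      exact ⟨x, fun w _ he => hh ⟨w, he⟩⟩
  obtain ⟨B, hxB, hcon, hcard⟩ := hB x
  have hB1 : ∀ w ∈ B, f w ≠ h := fun w hw => hx w fun he => hxB (he ▸ hw)
  have key : ∀ (u w : ((B : Set W) : Type)), (T.induce (B : Set W)).Walk u w →
      c (f (u : W)) = c (f (w : W)) := by
    intro u w p
    induction p with
    | nil => rfl
    | cons hab _ ih =>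
      rename_i u' v' w' _
      refine Eq.trans ?_ ih
      have h1 : T.Adj (u' : W) (v' : W) := hab
      exact hF2 _ _ (hadj _ _ h1) (hB1 _ u'.2) (hB1 _ v'.2)
  obtain ⟨b0⟩ := hcon.nonempty
  have h1 := hF1 (c (f (b0 : W))) (B.image f) ?_
  · rw [Finset.card_image_of_injective _ hinj] at h1
    omega
  · intro y hy
    obtain ⟨w, hw, rfl⟩ := Finset.mem_image.1 hy
    refine ⟨hB1 w hw, ?_⟩
    obtain ⟨p⟩ := hcon.preconnected ⟨w, hw⟩ b0
    exact key _ _ p

end Pool.Agent.Helper38.CT
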